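import Pool.Agent.Helper718_gaps.E

set_option autoImplicit false

namespace Pool.Agent.Results.MP_9e760c_nt.ManyDivisors

/-- Let `S(n)` be the sum of the reciprocal gaps `1 / (e - d)` over all pairs `d < e` of divisors of
`n`, and let `τ = τ(n)`. For every `n ≥ 1`,
`S(n) ≤ (∑_{g ∣ n} 1 / g) * ((3 + (log τ) / 13) * τ ^ (12 / 13) + 3 * τ ^ (7 / 8))`; and
`S(n) < τ(n)` for every `n` with at least `2 ^ 128` divisors. -/
theorem result :
    (∀ n : ℕ, 1 ≤ n →
      (∑ d ∈ n.divisors, ∑ e ∈ n.divisors.filter (fun e => d < e),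
          (1 : ℝ) / ((e : ℝ) - (d : ℝ))) ≤
        (∑ g ∈ n.divisors, (1 : ℝ) / (g : ℝ)) *
          ((3 + Real.log n.divisors.card / 13) * (n.divisors.card : ℝ) ^ ((12 : ℝ) / 13) +
            3 * (n.divisors.card : ℝ) ^ ((7 : ℝ) / 8))) ∧
    (∀ n : ℕ, 2 ^ 128 ≤ n.divisors.card →
      (∑ d ∈ n.divisors, ∑ e ∈ n.divisors.filter (fun e => d < e),
          (1 : ℝ) / ((e : ℝ) - (d : ℝ))) < (n.divisors.card : ℝ)) :=
  ⟨fun n hn => Pool.Agent.Helper718Gaps.main_bound n (by omega),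
    fun n hn => Pool.Agent.Helper718Gaps.many_divisors n hn⟩

end Pool.Agent.Results.MP_9e760c_nt.ManyDivisors
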